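import Pool.Agent.Lib.TG.Basic
import Pool.Agent.Lib.TG.Count

/-!
# TANK G, step 2 of the end: the blow up of a finite set of classes

`P` is a model, `Q j ≤` (locally `ψ (e j) f ^ (d j)`) are classes, `A` is a finite set of exponents.
`EA` is the model `∑ (a ∈ A), ∏ (Q j) ^ (a j + c) * P ^ (M - ..)`; its local ring at `V` is
generated over that of `P` by the `ψ (e i)`, if `A - a₀` lies in the cone of the `e i` and
`a₀ + e i ∈ A`.
-/

set_option autoImplicit false

namespace Pool.Agent.TG.Lat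

open Pool.Agent.GR (Vec InCone)
open Pool.Agent.LU2 (locV IsPar Mono le_locV locV_mono locV_le locV_inv locV_mem locV_locV)
open Pool.Agent.TG.Cnt (IsChar)

universe u

variable {k K : Type u} [Field k] [Field K] [Algebra k K] {V : ValuationSubring K} {N : ℕ}

/-- The submodule `S` is, up to a unit of `V`, `x O`. -/
structure Gen (V : ValuationSubring K) (O : Subalgebra k K) (S : Submodule k K) (x : K) : Prop where
  ne : x ≠ 0
  le : ∀ g ∈ S, g / x ∈ O
  ex : ∃ g ∈ S, V.valuation (g / x) = 1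

variable {O : Subalgebra k K} {S T : Submodule k K} {x y : K}

theorem Gen.mul (h : Gen V O S x) (h' : Gen V O T y) : Gen V O (S * T) (x * y) := by
  refine ⟨mul_ne_zero h.ne h'.ne, fun g hg => ?_, ?_⟩
  · induction hg using Submodule.mul_induction_on' with
    | mem_mul_mem a ha b hb =>
      rw [mul_div_mul_comm]
      exact O.mul_mem (h.le a ha) (h'.le b hb)
    | add a _ b _ ha hb => rw [add_div]; exact O.add_mem ha hb
  · obtain ⟨a, ha, h1⟩ := h.ex
    obtain ⟨b, hb, h2⟩ := h'.ex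
    exact ⟨a * b, Submodule.mul_mem_mul ha hb, by rw [mul_div_mul_comm, map_mul, h1, h2, one_mul]⟩

theorem Gen.one : Gen V O (1 : Submodule k K) 1 := by
  refine ⟨one_ne_zero, fun g hg => ?_, 1, Submodule.one_le.1 le_rfl, by rw [div_one, map_one]⟩
  obtain ⟨c, rfl⟩ := Submodule.mem_one.1 hg
  rw [div_one]
  exact O.algebraMap_mem c

theorem Gen.pow (h : Gen V O S x) (m : ℕ) : Gen V O (S ^ m) (x ^ m) := by
  induction m with
  | zero => rw [pow_zero, pow_zero]; exact Gen.one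
  | succ m ih => rw [pow_succ, pow_succ]; exact ih.mul h

theorem Gen.prod {ι : Type*} (s : Finset ι) (S : ι → Submodule k K) (x : ι → K)
    (h : ∀ i ∈ s, Gen V O (S i) (x i)) : Gen V O (∏ i ∈ s, S i) (∏ i ∈ s, x i) := by
  classical
  induction s using Finset.induction_on with
  | empty => rw [Finset.prod_empty, Finset.prod_empty]; exact Gen.one
  | insert a s ha ih =>
    rw [Finset.prod_insert ha, Finset.prod_insert ha]
    exact (h a (Finset.mem_insert_self a s)).mul
      (ih fun i hi => h i (Finset.mem_insert_of_mem hi))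

/-- One summand. -/
def lat (P : Submodule k K) (Q : Fin N → Submodule k K) (d : Fin N → ℕ) (c M : ℕ)
    (a : Vec N) : Submodule k K :=
  (∏ j, Q j ^ (a j + c).toNat) * P ^ (M - ∑ j, (a j + c).toNat * d j)

/-- The model. -/
def EA (P : Submodule k K) (Q : Fin N → Submodule k K) (d : Fin N → ℕ) (c M : ℕ)
    (A : Finset (Vec N)) : Submodule k K := ⨆ a ∈ A, lat P Q d c M a

/-- The constants `c`, `M` are large enough. -/
structure Big (d : Fin N → ℕ) (c M : ℕ) (A : Finset (Vec N)) : Prop where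
  shift : ∀ a ∈ A, ∀ j, 0 ≤ a j + c
  deg : ∀ a ∈ A, ∑ j, (a j + c).toNat * d j + 1 ≤ M

theorem exists_big (d : Fin N → ℕ) (A : Finset (Vec N)) : ∃ c M : ℕ, Big d c M A := by
  classical
  have h1 : ∃ c : ℕ, ∀ a ∈ A, ∀ j, 0 ≤ a j + c := by
    refine ⟨∑ a ∈ A, ∑ j, (a j).natAbs, fun a ha j => ?_⟩
    have h2 : (a j).natAbs ≤ ∑ j, (a j).natAbs :=
      Finset.single_le_sum (f := fun j => (a j).natAbs) (fun _ _ => Nat.zero_le _)
        (Finset.mem_univ j)
    have h3 : ∑ j, (a j).natAbs ≤ ∑ a ∈ A, ∑ j, (a j).natAbs :=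
      Finset.single_le_sum (f := fun a : Vec N => ∑ j, (a j).natAbs) (fun _ _ => Nat.zero_le _) ha
    have h4 : ((a j).natAbs : ℤ) ≤ ((∑ a ∈ A, ∑ j, (a j).natAbs : ℕ) : ℤ) := by
      exact_mod_cast h2.trans h3
    have h5 : -((a j).natAbs : ℤ) ≤ a j := by omega
    linarith
  obtain ⟨c, hc⟩ := h1
  refine ⟨c, ∑ a ∈ A, ∑ j, (a j + c).toNat * d j + 1, hc, fun a ha => ?_⟩
  have h3 : ∑ j, (a j + c).toNat * d j ≤ ∑ a ∈ A, ∑ j, (a j + c).toNat * d j :=
    Finset.single_le_sum (f := fun a : Vec N => ∑ j, (a j + c).toNat * d j)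
      (fun _ _ => Nat.zero_le _) ha
  omega

section Local

variable {P : Submodule k K} {Q : Fin N → Submodule k K} {d : Fin N → ℕ} {c M : ℕ}
  {A : Finset (Vec N)} {ψ : Vec N → K} {f : K}

theorem IsChar.eq_prod (hψ : IsChar ψ) (a : Vec N) : ψ a = ∏ j, ψ (Pi.single j 1) ^ a j := by
  have h1 : a = ∑ j, a j • (Pi.single j 1 : Vec N) := by
    funext i
    rw [Finset.sum_apply]
    simp [Pi.single_apply]
  conv_lhs => rw [h1]
  rw [hψ.sum]
  exact Finset.prod_congr rfl fun j _ => hψ.zsmul _ _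

/-- The summand of `a` is `ψ (a + c) f ^ M`. -/
theorem gen_lat (hψ : IsChar ψ) (hf : f ≠ 0) (hP : ∀ g ∈ P, g / f ∈ O) (hfP : f ∈ P)
    (hQ : ∀ j, Gen V O (Q j) (ψ (Pi.single j 1) * f ^ d j)) (hb : Big d c M A) {a : Vec N}
    (ha : a ∈ A) : Gen V O (lat P Q d c M a) (ψ (a + fun _ => (c : ℤ)) * f ^ M) := by
  have hPf : Gen V O P f := ⟨hf, hP, f, hfP, by rw [div_self hf, map_one]⟩
  have h1 := (Gen.prod Finset.univ (fun j => Q j ^ (a j + c).toNat) _
    fun j _ => (hQ j).pow (a j + c).toNat).mul (hPf.pow (M - ∑ j, (a j + c).toNat * d j))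
  have e : (∏ j, (ψ (Pi.single j 1) * f ^ d j) ^ (a j + c).toNat) *
      f ^ (M - ∑ j, (a j + c).toNat * d j) = ψ (a + fun _ => (c : ℤ)) * f ^ M := by
    have h2 : ∏ j, (ψ (Pi.single j 1) * f ^ d j) ^ (a j + c).toNat =
        ψ (a + fun _ => (c : ℤ)) * f ^ (∑ j, (a j + c).toNat * d j) := by
      rw [IsChar.eq_prod hψ, ← Finset.prod_pow_eq_pow_sum, ← Finset.prod_mul_distrib]
      refine Finset.prod_congr rfl fun j _ => ?_
      rw [mul_pow, ← pow_mul, mul_comm (d j)]
      congr 1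
      rw [← zpow_natCast, Int.toNat_of_nonneg (hb.shift a ha j)]
      rfl
    rw [h2, mul_assoc, ← pow_add]
    congr 2
    have := hb.deg a ha
    omega
  rw [e] at h1
  exact h1

theorem lat_le_EA {a : Vec N} (ha : a ∈ A) : lat P Q d c M a ≤ EA P Q d c M A :=
  le_iSup₂_of_le a ha le_rfl

theorem EA_induction {C : K → Prop} {g : K} (hg : g ∈ EA P Q d c M A)
    (h0 : C 0) (hadd : ∀ x y, C x → C y → C (x + y)) (h : ∀ a ∈ A, ∀ x ∈ lat P Q d c M a, C x) :
    C g := by
  rw [EA] at hg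
  induction hg using Submodule.iSup_induction' with
  | mem a x hx =>
    induction hx using Submodule.iSup_induction' with
    | mem ha x hx => exact h a ha x hx
    | zero => exact h0
    | add x y _ _ hx hy => exact hadd x y hx hy
  | zero => exact h0
  | add x y _ _ hx hy => exact hadd x y hx hy

theorem char_cone (hψ : IsChar ψ) {e : Module.Basis (Fin N) ℤ (Vec N)} {B : Subalgebra k K}
    (he : ∀ i, ψ (e i) ∈ B) {a : Vec N} (ha : InCone e a) : ψ a ∈ B := by
  rw [hψ.repr e a]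
  refine B.prod_mem fun i _ => ?_
  have h1 := ha i
  obtain ⟨m, hm⟩ := Int.eq_ofNat_of_zero_le h1
  rw [hm, zpow_natCast]
  exact B.pow_mem (he i) m

/-- The local ring of the blow up, over any local ring `O ≥ RV V P` dominated by `V` (for instance
the normalisation). -/
theorem sup_RV_EA (hV : Ov k V) (hPm : IsModel P) (hQfg : ∀ j, (Q j).FG) (hfm : IsMin V P f)
    (hPO : RV V P ≤ O) (hOV : ∀ a ∈ O, a ∈ V) (hOi : ∀ a ∈ O, V.valuation a = 1 → a⁻¹ ∈ O)
    (hψ : IsChar ψ) (hQ : ∀ j, Gen V O (Q j) (ψ (Pi.single j 1) * f ^ d j))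
    (hb : Big d c M A) (e : Module.Basis (Fin N) ℤ (Vec N)) {a₀ : Vec N} (ha₀ : a₀ ∈ A)
    (hae : ∀ i, a₀ + e i ∈ A) (hcone : ∀ a ∈ A, InCone e (a - a₀))
    (heV : ∀ i, ψ (e i) ∈ V) :
    IsModel (EA P Q d c M A) ∧ locV V (O ⊔ RV V (EA P Q d c M A)) =
      locV V (O ⊔ Algebra.adjoin k (Set.range fun i => ψ (e i))) := by
  classical
  have hPO' : ∀ g ∈ P, g / f ∈ O := fun g hg => hPO (div_mem_RV hfm hg)
  have hgen : ∀ {a : Vec N}, a ∈ A → Gen V O (lat P Q d c M a)
      (ψ (a + fun _ => (c : ℤ)) * f ^ M) := fun ha => gen_lat hψ hfm.ne hPO' hfm.mem hQ hb ha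
  set X : Vec N → K := fun a => ψ (a + fun _ => (c : ℤ)) * f ^ M with hX
  have hX0 : ∀ a, X a ≠ 0 := fun a => mul_ne_zero (hψ.ne _) (pow_ne_zero _ hfm.ne)
  have hXdiv : ∀ a b, X a / X b = ψ (a - b) := by
    intro a b
    have h1 : a + (fun _ => (c : ℤ)) = (a - b) + (b + fun _ => (c : ℤ)) := by abel
    simp only [hX]
    rw [mul_div_mul_right _ _ (pow_ne_zero _ hfm.ne), h1, hψ.add (a - b),
      mul_div_assoc, div_self (hψ.ne _), mul_one]
  -- the minimal element
  obtain ⟨h, hhlat, hhX⟩ := (hgen ha₀).ex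
  have hhO : h / X a₀ ∈ O := (hgen ha₀).le h hhlat
  have hh0 : h ≠ 0 := by
    intro h0
    rw [h0, zero_div, map_zero] at hhX
    exact zero_ne_one hhX
  have hhinv : X a₀ / h ∈ O := by
    have := hOi _ hhO hhX
    rwa [inv_div] at this
  have hdec : ∀ {a g : _}, g / h = g / X a * ψ (a - a₀) * (X a₀ / h) := by
    intro a g
    rw [← hXdiv a a₀]
    have h1 := hX0 a
    have h2 := hX0 a₀
    field_simp
  have hψV : ∀ a ∈ A, ψ (a - a₀) ∈ V := by
    intro a ha
    have := char_cone (B := valg hV) hψ (e := e) heV (hcone a ha)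
    exact this
  have hmin : IsMin V (EA P Q d c M A) h := by
    refine ⟨lat_le_EA ha₀ hhlat, hh0, fun g hg => ?_⟩
    refine EA_induction (C := fun g => g / h ∈ V) hg (by rw [zero_div]; exact V.zero_mem)
      (fun x y hx hy => by rw [add_div]; exact V.add_mem _ _ hx hy) fun a ha x hx => ?_
    rw [hdec (a := a)]
    exact V.mul_mem _ _ (V.mul_mem _ _ (hOV _ ((hgen ha).le x hx)) (hψV a ha)) (hOV _ hhinv)
  have hmodel : IsModel (EA P Q d c M A) := by
    refine ⟨?_, fun h0 => hh0 ?_⟩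
    · rw [EA]
      refine Submodule.fg_biSup A _ fun a _ => ?_
      refine Submodule.FG.mul ?_ (hPm.pow _).fg
      have : ∀ s : Finset (Fin N), (∏ j ∈ s, Q j ^ (a j + c).toNat).FG := by
        intro s
        induction s using Finset.induction_on with
        | empty => rw [Finset.prod_empty]; exact IsModel.one.fg
        | insert j s hj ih =>
          rw [Finset.prod_insert hj]
          exact Submodule.FG.mul (Submodule.FG.pow (hQfg j) _) ih
      exact this _
    · have := hmin.mem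
      rw [h0, Submodule.mem_bot] at this
      exact this
  refine ⟨hmodel, ?_⟩
  set B := locV V (O ⊔ Algebra.adjoin k (Set.range fun i => ψ (e i))) with hB
  have hOB : O ≤ B := le_sup_left.trans (le_locV _)
  have heB : ∀ i, ψ (e i) ∈ B := fun i =>
    le_locV _ ((le_sup_right : Algebra.adjoin k (Set.range fun i => ψ (e i)) ≤ _)
      (Algebra.subset_adjoin ⟨i, rfl⟩))
  set B' := locV V (O ⊔ RV V (EA P Q d c M A)) with hB'
  have hOB' : O ≤ B' := le_sup_left.trans (le_locV _)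
  have hEB' : RV V (EA P Q d c M A) ≤ B' := le_sup_right.trans (le_locV _)
  apply le_antisymm
  · refine locV_le (sup_le hOB ?_) fun a ha h1 => locV_inv ha h1
    rw [RV_le_iff (fun a ha h1 => locV_inv ha h1) hmin]
    intro g hg
    refine EA_induction (C := fun g => g / h ∈ B) hg (by rw [zero_div]; exact B.zero_mem)
      (fun x y hx hy => by rw [add_div]; exact B.add_mem hx hy) fun a ha x hx => ?_
    rw [hdec (a := a)]
    exact B.mul_mem (B.mul_mem (hOB ((hgen ha).le x hx)) (char_cone hψ heB (hcone a ha)))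
      (hOB hhinv)
  · refine locV_le (sup_le hOB' (Algebra.adjoin_le ?_)) fun a ha h1 => locV_inv ha h1
    rintro _ ⟨i, rfl⟩
    obtain ⟨g, hg, hg1⟩ := (hgen (hae i)).ex
    have hgO := (hgen (hae i)).le g hg
    have h1 : g / h ∈ B' := hEB' (div_mem_RV hmin (lat_le_EA (hae i) hg))
    have h2 : (g / X (a₀ + e i))⁻¹ ∈ B' := locV_inv (hOB' hgO) hg1
    have h3 : (X a₀ / h)⁻¹ ∈ B' := by
      rw [inv_div]
      exact hOB' hhO
    have hg0 : g ≠ 0 := by
      intro h0
      rw [h0, zero_div, map_zero] at hg1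
      exact zero_ne_one hg1
    have e1 : ψ (e i) = g / h * (g / X (a₀ + e i))⁻¹ * (X a₀ / h)⁻¹ := by
      have h4 := hXdiv (a₀ + e i) a₀
      rw [add_sub_cancel_left] at h4
      rw [← h4]
      have h5 := hX0 a₀
      have h6 := hX0 (a₀ + e i)
      field_simp
    change ψ (e i) ∈ _
    rw [e1]
    exact Subalgebra.mul_mem _ (Subalgebra.mul_mem _ h1 h2) h3

/-- The same for a model `P₁` whose local ring is `O` (the normalisation of `P`). -/
theorem RV_mul_EA {P₁ : Submodule k K} (hV : Ov k V) (hP₁ : IsModel P₁) (hPm : IsModel P)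
    (hQfg : ∀ j, (Q j).FG) (hfm : IsMin V P f) (hPO : RV V P ≤ RV V P₁)
    (hψ : IsChar ψ) (hQ : ∀ j, Gen V (RV V P₁) (Q j) (ψ (Pi.single j 1) * f ^ d j))
    (hb : Big d c M A) (e : Module.Basis (Fin N) ℤ (Vec N)) {a₀ : Vec N} (ha₀ : a₀ ∈ A)
    (hae : ∀ i, a₀ + e i ∈ A) (hcone : ∀ a ∈ A, InCone e (a - a₀))
    (heV : ∀ i, ψ (e i) ∈ V) :
    IsModel (EA P Q d c M A) ∧ RV V (P₁ * EA P Q d c M A) =
      locV V (RV V P₁ ⊔ Algebra.adjoin k (Set.range fun i => ψ (e i))) := by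
  obtain ⟨h1, h2⟩ := sup_RV_EA (O := RV V P₁) hV hPm hQfg hfm hPO (RV_le hV hP₁)
    (fun a ha h => RV_inv ha h) hψ hQ hb e ha₀ hae hcone heV
  exact ⟨h1, by rw [RV_mul hV hP₁ h1, h2]⟩

end Local

end Pool.Agent.TG.Lat
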